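import Mathlib
import Pool.Agent.Helper844.DPRM

set_option autoImplicit false

/-! Relations on a monoid definable by finite systems of equations, and undecidability of
the Diophantine problem from a definable copy of arithmetic. -/

namespace Pool.Agent.H176R3.OneRel.Df

variable {M A : Type} [Monoid M]

/-- words with variables in `ι` and constants in `A` -/
abbrev Tm (A ι : Type) : Type := List (A ⊕ ι)

/-- value of a word -/
def ev (gen : A → M) {ι : Type} (a : ι → M) (t : Tm A ι) : M := (t.map (Sum.elim gen a)).prod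

variable {gen : A → M}

theorem ev_append {ι : Type} (a : ι → M) (t u : Tm A ι) :
    ev gen a (t ++ u) = ev gen a t * ev gen a u := by
  simp [ev]

/-- substitution -/
def sub {ι κ : Type} (f : ι → Tm A κ) (t : Tm A ι) : Tm A κ :=
  t.flatMap (Sum.elim (fun x => [Sum.inl x]) f)

theorem ev_sub {ι κ : Type} (f : ι → Tm A κ) (t : Tm A ι) (a : κ → M) :
    ev gen a (sub f t) = ev gen (fun i => ev gen a (f i)) t := by
  induction t with
  | nil => rfl
  | cons p t ih =>
    have h1 : sub f (p :: t) = sub f [p] ++ sub f t := by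
      unfold sub; simp
    have h2 : (p :: t : Tm A ι) = [p] ++ t := rfl
    rw [h1, h2, ev_append, ev_append, ih]
    congr 1
    rcases p with p | g
    · simp [sub, ev]
    · simp [sub, ev]

/-- functions given by words -/
def TF (gen : A → M) {ι : Type} (f : (ι → M) → M) : Prop := ∃ t : Tm A ι, ∀ a, ev gen a t = f a

theorem TF.proj {ι : Type} (i : ι) : TF gen (fun a : ι → M => a i) :=
  ⟨[Sum.inr i], fun a => by simp [ev]⟩

theorem TF.const {ι : Type} (g : A) : TF gen (fun _ : ι → M => gen g) :=
  ⟨[Sum.inl g], fun a => by simp [ev]⟩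

theorem TF.one {ι : Type} : TF gen (fun _ : ι → M => 1) :=
  ⟨[], fun a => by simp [ev]⟩

theorem TF.mul {ι : Type} {f g : (ι → M) → M} (hf : TF gen f) (hg : TF gen g) :
    TF gen (fun a => f a * g a) := by
  obtain ⟨t, ht⟩ := hf
  obtain ⟨u, hu⟩ := hg
  exact ⟨t ++ u, fun a => by rw [ev_append, ht, hu]⟩

/-- relations defined by finite systems with auxiliary variables -/
def Dfn (gen : A → M) {ι : Type} (P : (ι → M) → Prop) : Prop :=
  ∃ (κ : Type) (_ : Fintype κ) (L : List (Tm A (ι ⊕ κ) × Tm A (ι ⊕ κ))),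
    ∀ a : ι → M, P a ↔ ∃ b : κ → M, ∀ t ∈ L,
      ev gen (Sum.elim a b) t.1 = ev gen (Sum.elim a b) t.2

theorem Dfn.congr {ι : Type} {P Q : (ι → M) → Prop} (hP : Dfn gen P) (h : ∀ a, Q a ↔ P a) :
    Dfn gen Q := by
  obtain ⟨κ, i, L, hL⟩ := hP
  exact ⟨κ, i, L, fun a => (h a).trans (hL a)⟩

/-- renaming of variables -/
def ren {ι κ : Type} (f : ι → κ) (t : Tm A ι) : Tm A κ := sub (fun i => [Sum.inr (f i)]) t

theorem ev_ren {ι κ : Type} (f : ι → κ) (t : Tm A ι) (a : κ → M) :
    ev gen a (ren f t) = ev gen (a ∘ f) t := by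
  unfold ren
  rw [ev_sub]
  congr 1
  funext i
  simp [ev]

theorem Dfn.eq {ι : Type} {f g : (ι → M) → M} (hf : TF gen f) (hg : TF gen g) :
    Dfn gen (fun a => f a = g a) := by
  obtain ⟨t, ht⟩ := hf
  obtain ⟨u, hu⟩ := hg
  refine ⟨Empty, inferInstance, [(ren Sum.inl t, ren Sum.inl u)], ?_⟩
  intro a
  have e : ∀ b : Empty → M, (Sum.elim a b : ι ⊕ Empty → M) ∘ Sum.inl = a := fun b => by
    funext i; rfl
  constructor
  · intro h
    refine ⟨Empty.elim, ?_⟩
    intro v hv
    rw [List.mem_singleton] at hv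
    subst hv
    simp only [ev_ren, e, ht, hu]
    exact h
  · rintro ⟨b, hb⟩
    have := hb _ (List.mem_singleton.2 rfl)
    simp only [ev_ren, e, ht, hu] at this
    exact this

theorem Dfn.tr {ι : Type} : Dfn gen (fun _ : ι → M => True) :=
  ⟨Empty, inferInstance, [], fun a => by simp⟩

/-- renaming both sides -/
def ren2 {ι κ : Type} (f : ι → κ) (t : Tm A ι × Tm A ι) : Tm A κ × Tm A κ :=
  (ren f t.1, ren f t.2)

theorem ev_ren2 {ι κ : Type} (f : ι → κ) (t : Tm A ι × Tm A ι) (a : κ → M) :
    (ev gen a (ren2 f t).1 = ev gen a (ren2 f t).2) ↔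
      (ev gen (a ∘ f) t.1 = ev gen (a ∘ f) t.2) := by
  simp only [ren2, ev_ren]

theorem Dfn.and {ι : Type} {P Q : (ι → M) → Prop} (hP : Dfn gen P) (hQ : Dfn gen Q) :
    Dfn gen (fun a => P a ∧ Q a) := by
  obtain ⟨κ, _, L, hL⟩ := hP
  obtain ⟨κ', _, L', hL'⟩ := hQ
  refine ⟨κ ⊕ κ', inferInstance, L.map (ren2 (Sum.map id Sum.inl)) ++
    L'.map (ren2 (Sum.map id Sum.inr)), ?_⟩
  intro a
  refine (and_congr (hL a) (hL' a)).trans ?_
  constructor
  · rintro ⟨⟨b, hb⟩, ⟨b', hb'⟩⟩
    refine ⟨Sum.elim b b', ?_⟩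
    intro t ht
    rcases List.mem_append.1 ht with ht | ht
    · obtain ⟨t, ht', rfl⟩ := List.mem_map.1 ht
      rw [ev_ren2]
      have : Sum.elim a (Sum.elim b b') ∘ Sum.map id Sum.inl = Sum.elim a b := by
        funext i; rcases i with i | i <;> rfl
      rw [this]
      exact hb t ht'
    · obtain ⟨t, ht', rfl⟩ := List.mem_map.1 ht
      rw [ev_ren2]
      have : Sum.elim a (Sum.elim b b') ∘ Sum.map id Sum.inr = Sum.elim a b' := by
        funext i; rcases i with i | i <;> rfl
      rw [this]
      exact hb' t ht'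
  · rintro ⟨b, hb⟩
    refine ⟨⟨b ∘ Sum.inl, ?_⟩, ⟨b ∘ Sum.inr, ?_⟩⟩
    · intro t ht
      have := hb _ (List.mem_append_left _ (List.mem_map_of_mem ht))
      rw [ev_ren2] at this
      have e : Sum.elim a b ∘ Sum.map id Sum.inl = Sum.elim a (b ∘ Sum.inl) := by
        funext i; rcases i with i | i <;> rfl
      rwa [e] at this
    · intro t ht
      have := hb _ (List.mem_append_right _ (List.mem_map_of_mem ht))
      rw [ev_ren2] at this
      have e : Sum.elim a b ∘ Sum.map id Sum.inr = Sum.elim a (b ∘ Sum.inr) := by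
        funext i; rcases i with i | i <;> rfl
      rwa [e] at this

theorem Dfn.ex {ι κ : Type} [Fintype κ] {P : (κ → M) → (ι → M) → Prop}
    (hP : Dfn gen (fun c : κ ⊕ ι → M => P (fun k => c (Sum.inl k)) (fun i => c (Sum.inr i)))) :
    Dfn gen (fun a : ι → M => ∃ b : κ → M, P b a) := by
  obtain ⟨μ, _, L, hL⟩ := hP
  let f : (κ ⊕ ι) ⊕ μ → ι ⊕ (κ ⊕ μ) := fun z => match z with
    | Sum.inl (Sum.inl k) => Sum.inr (Sum.inl k)
    | Sum.inl (Sum.inr i) => Sum.inl i
    | Sum.inr m => Sum.inr (Sum.inr m)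
  refine ⟨κ ⊕ μ, inferInstance, L.map (ren2 f), ?_⟩
  intro a
  have key : ∀ (b : κ → M) (m : μ → M),
      (Sum.elim a (Sum.elim b m) : ι ⊕ (κ ⊕ μ) → M) ∘ f = Sum.elim (Sum.elim b a) m := by
    intro b m
    funext z
    rcases z with (z | z) | z <;> rfl
  constructor
  · rintro ⟨b, hb⟩
    obtain ⟨m, hm⟩ := (hL (Sum.elim b a)).1 hb
    refine ⟨Sum.elim b m, ?_⟩
    intro t ht
    obtain ⟨t, ht', rfl⟩ := List.mem_map.1 ht
    rw [ev_ren2, key]
    exact hm t ht'
  · rintro ⟨c, hc⟩
    have e : c = Sum.elim (c ∘ Sum.inl) (c ∘ Sum.inr) := by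
      funext z; rcases z with z | z <;> rfl
    refine ⟨c ∘ Sum.inl, (hL (Sum.elim (c ∘ Sum.inl) a)).2 ⟨c ∘ Sum.inr, ?_⟩⟩
    intro t ht
    have := hc _ (List.mem_map_of_mem ht)
    rw [ev_ren2, e, key] at this
    exact this

theorem Dfn.ex1 {ι : Type} {P : M → (ι → M) → Prop}
    (hP : Dfn gen (fun c : Unit ⊕ ι → M => P (c (Sum.inl ())) (fun i => c (Sum.inr i)))) :
    Dfn gen (fun a : ι → M => ∃ b : M, P b a) := by
  refine (Dfn.ex (κ := Unit) (P := fun b a => P (b ()) a) hP).congr ?_
  intro a
  constructor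
  · rintro ⟨b, hb⟩
    exact ⟨fun _ => b, hb⟩
  · rintro ⟨b, hb⟩
    exact ⟨b (), hb⟩

theorem Dfn.comp {ι κ : Type} {P : (ι → M) → Prop} (hP : Dfn gen P) {s : ι → (κ → M) → M}
    (hs : ∀ i, TF gen (s i)) : Dfn gen (fun a => P (fun i => s i a)) := by
  obtain ⟨μ, _, L, hL⟩ := hP
  choose u hu using hs
  let g : ι ⊕ μ → Tm A (κ ⊕ μ) := Sum.elim (fun i => ren Sum.inl (u i)) (fun m => [Sum.inr (Sum.inr m)])
  refine ⟨μ, inferInstance, L.map (fun t => (sub g t.1, sub g t.2)), ?_⟩
  intro a
  refine (hL _).trans ?_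
  have key : ∀ (m : μ → M) (t : Tm A (ι ⊕ μ)),
      ev gen (Sum.elim a m) (sub g t) = ev gen (Sum.elim (fun i => s i a) m) t := by
    intro m t
    rw [ev_sub]
    congr 1
    funext z
    rcases z with z | z
    · simp only [g, Sum.elim_inl]
      rw [ev_ren, ← hu]
      rfl
    · simp [g, ev]
  constructor
  · rintro ⟨b, hb⟩
    refine ⟨b, ?_⟩
    intro t ht
    obtain ⟨t, ht', rfl⟩ := List.mem_map.1 ht
    simp only [key]
    exact hb t ht'
  · rintro ⟨b, hb⟩
    refine ⟨b, ?_⟩
    intro t ht
    have := hb _ (List.mem_map_of_mem ht)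
    simpa only [key] using this

/-- unary definable relations -/
def Dfn1 (gen : A → M) (R : M → Prop) : Prop := Dfn gen (fun a : Unit → M => R (a ()))

theorem Dfn1.ap {ι : Type} {R : M → Prop} (h : Dfn1 gen R) {f : (ι → M) → M} (hf : TF gen f) :
    Dfn gen (fun a => R (f a)) :=
  Dfn.comp h (s := fun _ => f) (fun _ => hf)

/-- binary definable relations -/
def Dfn2 (gen : A → M) (R : M → M → Prop) : Prop := Dfn gen (fun a : Fin 2 → M => R (a 0) (a 1))

theorem Dfn2.ap {ι : Type} {R : M → M → Prop} (h : Dfn2 gen R) {f g : (ι → M) → M}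
    (hf : TF gen f) (hg : TF gen g) : Dfn gen (fun a => R (f a) (g a)) := by
  refine Dfn.comp h (s := ![f, g]) ?_
  intro i
  fin_cases i
  · exact hf
  · exact hg

/-- ternary definable relations -/
def Dfn3 (gen : A → M) (R : M → M → M → Prop) : Prop :=
  Dfn gen (fun a : Fin 3 → M => R (a 0) (a 1) (a 2))

theorem Dfn3.ap {ι : Type} {R : M → M → M → Prop} (h : Dfn3 gen R) {f g k : (ι → M) → M}
    (hf : TF gen f) (hg : TF gen g) (hk : TF gen k) : Dfn gen (fun a => R (f a) (g a) (k a)) := by
  refine Dfn.comp h (s := ![f, g, k]) ?_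
  intro i
  fin_cases i
  · exact hf
  · exact hg
  · exact hk

/-! ### arithmetic -/

/-- a definable copy of arithmetic, numerals being the powers of a generator -/
structure Arith (gen : A → M) where
  /-- the letter generating the numerals -/
  base : A
  inj : Function.Injective (fun n : ℕ => gen base ^ n)
  num : Dfn1 gen (fun x => ∃ n : ℕ, x = gen base ^ n)
  mul : Dfn3 gen (fun x y z => ∃ m n : ℕ, x = gen base ^ m ∧ y = gen base ^ n ∧
    z = gen base ^ (m * n))

/-- natural number relations definable in `M` -/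
def DN (gen : A → M) (b : A) {α : Type} (P : (α → ℕ) → Prop) : Prop :=
  ∃ Q : (α → M) → Prop, Dfn gen Q ∧ ∀ v : α → ℕ, P v ↔ Q (fun i => gen b ^ v i)

theorem DN.congr {b : A} {α : Type} {P Q : (α → ℕ) → Prop} (hP : DN gen b P)
    (h : ∀ v, Q v ↔ P v) : DN gen b Q := by
  obtain ⟨R, h1, h2⟩ := hP
  exact ⟨R, h1, fun v => (h v).trans (h2 v)⟩

theorem DN.and {b : A} {α : Type} {P Q : (α → ℕ) → Prop} (hP : DN gen b P)
    (hQ : DN gen b Q) : DN gen b (fun v => P v ∧ Q v) := by
  obtain ⟨R, h1, h2⟩ := hP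
  obtain ⟨S, h3, h4⟩ := hQ
  exact ⟨_, h1.and h3, fun v => and_congr (h2 v) (h4 v)⟩

theorem DN.comp {b : A} {α β : Type} {P : (α → ℕ) → Prop} (hP : DN gen b P) (f : α → β) :
    DN gen b (fun v : β → ℕ => P (fun i => v (f i))) := by
  obtain ⟨R, h1, h2⟩ := hP
  exact ⟨_, h1.comp (s := fun i a => a (f i)) (fun i => TF.proj (f i)), fun v => h2 _⟩

theorem DN.exF (ar : Arith gen) {α κ : Type} [Fintype κ] {P : (κ → ℕ) → (α → ℕ) → Prop}
    (hP : DN gen ar.base (fun c : κ ⊕ α → ℕ => P (fun k => c (Sum.inl k)) (fun i => c (Sum.inr i)))) :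
    DN gen ar.base (fun v : α → ℕ => ∃ t : κ → ℕ, P t v) := by
  obtain ⟨R, h1, h2⟩ := hP
  have hall : Dfn gen (fun c : κ ⊕ α → M => ∀ k : κ, ∃ n : ℕ, c (Sum.inl k) = gen ar.base ^ n) := by
    classical
    have : ∀ l : List κ, Dfn gen (fun c : κ ⊕ α → M => ∀ k ∈ l, ∃ n : ℕ,
        c (Sum.inl k) = gen ar.base ^ n) := by
      intro l
      induction l with
      | nil => exact Dfn.tr.congr (fun a => by simp)
      | cons q l ih =>
        refine ((ar.num.ap (TF.proj (Sum.inl q))).and ih).congr ?_
        intro a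
        simp
    refine (this (Finset.univ : Finset κ).toList).congr ?_
    intro a
    simp
  refine ⟨fun a => ∃ b : κ → M, (∀ k : κ, ∃ n : ℕ, b k = gen ar.base ^ n) ∧ R (Sum.elim b a), ?_, ?_⟩
  · refine Dfn.ex (κ := κ) (P := fun b a => (∀ k : κ, ∃ n : ℕ, b k = gen ar.base ^ n) ∧
      R (Sum.elim b a)) ?_
    refine hall.and (h1.congr ?_)
    intro c
    have : (Sum.elim (fun k => c (Sum.inl k)) (fun i => c (Sum.inr i)) : κ ⊕ α → M) = c := by
      funext z; rcases z with z | z <;> rfl
    simp only [this]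
  · intro v
    constructor
    · rintro ⟨t, ht⟩
      refine ⟨fun k => gen ar.base ^ t k, fun k => ⟨t k, rfl⟩, ?_⟩
      have := (h2 (Sum.elim t v)).1 ht
      have e : (fun i => gen ar.base ^ (Sum.elim t v : κ ⊕ α → ℕ) i) =
          Sum.elim (fun k => gen ar.base ^ t k) (fun i => gen ar.base ^ v i) := by
        funext z; rcases z with z | z <;> rfl
      rw [e] at this
      exact this
    · rintro ⟨b, hb, hR⟩
      choose t ht using hb
      refine ⟨t, ?_⟩
      have e : (fun i => gen ar.base ^ (Sum.elim t v : κ ⊕ α → ℕ) i) =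
          Sum.elim b (fun i => gen ar.base ^ v i) := by
        funext z
        rcases z with z | z
        · exact (ht z).symm
        · rfl
      exact (h2 (Sum.elim t v)).2 (by rw [e]; exact hR)

/-- linear equations between sums of variables -/
theorem DN.lin (ar : Arith gen) {α : Type} (l l' : List α) (c c' : ℕ) :
    DN gen ar.base (fun v : α → ℕ => (l.map v).sum + c = (l'.map v).sum + c') := by
  have hT : ∀ (l : List α) (c : ℕ), TF gen (fun a : α → M => (l.map a).prod * gen ar.base ^ c) := by
    intro l c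
    refine TF.mul ?_ ?_
    · induction l with
      | nil => exact TF.one
      | cons x l ih =>
        simp only [List.map_cons, List.prod_cons]
        exact (TF.proj x).mul ih
    · induction c with
      | zero => simpa using TF.one
      | succ c ih => simpa [pow_succ] using ih.mul (TF.const ar.base)
  have hE : ∀ (l : List α) (c : ℕ) (v : α → ℕ),
      (l.map (fun i => gen ar.base ^ v i)).prod * gen ar.base ^ c =
        gen ar.base ^ ((l.map v).sum + c) := by
    intro l c v
    rw [pow_add]
    congr 1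
    induction l with
    | nil => simp
    | cons x l ih => simp [pow_add, ih]
  refine ⟨_, Dfn.eq (hT l c) (hT l' c'), fun v => ?_⟩
  simp only [hE]
  exact ⟨fun h => by rw [h], fun h => ar.inj h⟩

theorem DN.mul (ar : Arith gen) {α : Type} (i j k : α) :
    DN gen ar.base (fun v : α → ℕ => v i * v j = v k) := by
  refine ⟨_, ar.mul.ap (TF.proj i) (TF.proj j) (TF.proj k), fun v => ?_⟩
  constructor
  · intro h
    exact ⟨v i, v j, rfl, rfl, by rw [h]⟩
  · rintro ⟨m, n, h1, h2, h3⟩
    have e1 : v i = m := ar.inj h1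
    have e2 : v j = n := ar.inj h2
    have e3 : v k = m * n := ar.inj h3
    rw [e1, e2, e3]

/-- the graph of an integral polynomial: `p v + t = s` -/
theorem DN.poly (ar : Arith gen) {γ : Type} (p : Poly γ) :
    DN gen ar.base (fun v : γ ⊕ Bool → ℕ =>
      p (fun i => v (Sum.inl i)) + (v (Sum.inr false) : ℤ) = (v (Sum.inr true) : ℤ)) := by
  refine Poly.induction (C := fun p => DN gen ar.base (fun v : γ ⊕ Bool → ℕ =>
      p (fun i => v (Sum.inl i)) + (v (Sum.inr false) : ℤ) = (v (Sum.inr true) : ℤ)))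
      ?_ ?_ ?_ ?_ p
  · intro i
    refine (DN.lin ar [Sum.inl i, Sum.inr false] [Sum.inr true] 0 0).congr ?_
    intro v
    simp only [Poly.proj_apply, List.map_cons, List.map_nil, List.sum_cons, List.sum_nil]
    omega
  · intro n
    refine (DN.lin ar [Sum.inr false] [Sum.inr true] n.toNat (-n).toNat).congr ?_
    intro v
    simp only [Poly.const_apply, List.map_cons, List.map_nil, List.sum_cons, List.sum_nil]
    omega
  · intro f g hf hg
    -- variables: s1 t1 s2 t2 indexed by `Bool × Bool`
    refine (DN.exF ar (κ := Bool × Bool) (P := fun (t : Bool × Bool → ℕ) (v : γ ⊕ Bool → ℕ) =>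
      ((f (fun i => v (Sum.inl i)) + (t (true, false) : ℤ) = (t (true, true) : ℤ)) ∧
        (g (fun i => v (Sum.inl i)) + (t (false, false) : ℤ) = (t (false, true) : ℤ))) ∧
        t (true, true) + t (false, false) + v (Sum.inr false) =
          v (Sum.inr true) + t (true, false) + t (false, true)) ?_).congr ?_
    · refine DN.and (DN.and ?_ ?_) ?_
      · exact hf.comp (fun z : γ ⊕ Bool => match z with
          | Sum.inl i => (Sum.inr (Sum.inl i) : (Bool × Bool) ⊕ (γ ⊕ Bool))
          | Sum.inr b => Sum.inl (true, b))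
      · exact hg.comp (fun z : γ ⊕ Bool => match z with
          | Sum.inl i => (Sum.inr (Sum.inl i) : (Bool × Bool) ⊕ (γ ⊕ Bool))
          | Sum.inr b => Sum.inl (false, b))
      · refine (DN.lin ar [Sum.inl (true, true), Sum.inl (false, false), Sum.inr (Sum.inr false)]
          [Sum.inr (Sum.inr true), Sum.inl (true, false), Sum.inl (false, true)] 0 0).congr ?_
        intro v
        simp only [List.map_cons, List.map_nil, List.sum_cons, List.sum_nil]
        omega
    · intro v
      rw [Poly.sub_apply]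
      constructor
      · intro h
        refine ⟨fun z => match z with
          | (true, true) => (f (fun i => v (Sum.inl i))).toNat
          | (true, false) => (-(f (fun i => v (Sum.inl i)))).toNat
          | (false, true) => (g (fun i => v (Sum.inl i))).toNat
          | (false, false) => (-(g (fun i => v (Sum.inl i)))).toNat, ⟨?_, ?_⟩, ?_⟩
        · simp only; omega
        · simp only; omega
        · simp only; omega
      · rintro ⟨t, ⟨h1, h2⟩, h3⟩
        omega
  · intro f g hf hg
    refine (DN.exF ar (κ := (Bool × Bool) ⊕ (Bool × Bool))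
      (P := fun (t : (Bool × Bool) ⊕ (Bool × Bool) → ℕ) (v : γ ⊕ Bool → ℕ) =>
      (((f (fun i => v (Sum.inl i)) + (t (Sum.inl (true, false)) : ℤ) = (t (Sum.inl (true, true)) : ℤ)) ∧
        (g (fun i => v (Sum.inl i)) + (t (Sum.inl (false, false)) : ℤ) = (t (Sum.inl (false, true)) : ℤ))) ∧
        ((t (Sum.inl (true, true)) * t (Sum.inl (false, true)) = t (Sum.inr (true, true)) ∧
          t (Sum.inl (true, true)) * t (Sum.inl (false, false)) = t (Sum.inr (true, false))) ∧
          (t (Sum.inl (true, false)) * t (Sum.inl (false, true)) = t (Sum.inr (false, true)) ∧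
          t (Sum.inl (true, false)) * t (Sum.inl (false, false)) = t (Sum.inr (false, false))))) ∧
        t (Sum.inr (true, true)) + t (Sum.inr (false, false)) + v (Sum.inr false) =
          v (Sum.inr true) + t (Sum.inr (true, false)) + t (Sum.inr (false, true))) ?_).congr ?_
    · refine DN.and (DN.and (DN.and ?_ ?_) (DN.and (DN.and ?_ ?_) (DN.and ?_ ?_))) ?_
      · exact hf.comp (fun z : γ ⊕ Bool => match z with
          | Sum.inl i => (Sum.inr (Sum.inl i) : ((Bool × Bool) ⊕ (Bool × Bool)) ⊕ (γ ⊕ Bool))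
          | Sum.inr b => Sum.inl (Sum.inl (true, b)))
      · exact hg.comp (fun z : γ ⊕ Bool => match z with
          | Sum.inl i => (Sum.inr (Sum.inl i) : ((Bool × Bool) ⊕ (Bool × Bool)) ⊕ (γ ⊕ Bool))
          | Sum.inr b => Sum.inl (Sum.inl (false, b)))
      · exact DN.mul ar (Sum.inl (Sum.inl (true, true))) (Sum.inl (Sum.inl (false, true)))
          (Sum.inl (Sum.inr (true, true)))
      · exact DN.mul ar (Sum.inl (Sum.inl (true, true))) (Sum.inl (Sum.inl (false, false)))
          (Sum.inl (Sum.inr (true, false)))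
      · exact DN.mul ar (Sum.inl (Sum.inl (true, false))) (Sum.inl (Sum.inl (false, true)))
          (Sum.inl (Sum.inr (false, true)))
      · exact DN.mul ar (Sum.inl (Sum.inl (true, false))) (Sum.inl (Sum.inl (false, false)))
          (Sum.inl (Sum.inr (false, false)))
      · refine (DN.lin ar [Sum.inl (Sum.inr (true, true)), Sum.inl (Sum.inr (false, false)),
          Sum.inr (Sum.inr false)]
          [Sum.inr (Sum.inr true), Sum.inl (Sum.inr (true, false)),
            Sum.inl (Sum.inr (false, true))] 0 0).congr ?_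
        intro v
        simp only [List.map_cons, List.map_nil, List.sum_cons, List.sum_nil]
        omega
    · intro v
      rw [Poly.mul_apply]
      constructor
      · intro h
        let F : ℤ := f (fun i => v (Sum.inl i))
        let G : ℤ := g (fun i => v (Sum.inl i))
        refine ⟨fun z => match z with
          | Sum.inl (true, true) => F.toNat
          | Sum.inl (true, false) => (-F).toNat
          | Sum.inl (false, true) => G.toNat
          | Sum.inl (false, false) => (-G).toNat
          | Sum.inr (true, true) => F.toNat * G.toNat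
          | Sum.inr (true, false) => F.toNat * (-G).toNat
          | Sum.inr (false, true) => (-F).toNat * G.toNat
          | Sum.inr (false, false) => (-F).toNat * (-G).toNat, ⟨⟨?_, ?_⟩, ⟨rfl, rfl⟩, rfl, rfl⟩, ?_⟩
        · simp only [F]; omega
        · simp only [G]; omega
        · have h1 : F = (F.toNat : ℤ) - ((-F).toNat : ℤ) := by omega
          have h2 : G = (G.toNat : ℤ) - ((-G).toNat : ℤ) := by omega
          change F * G + (v (Sum.inr false) : ℤ) = (v (Sum.inr true) : ℤ) at h
          have h3 : F * G = ((F.toNat : ℤ) - ((-F).toNat : ℤ)) * ((G.toNat : ℤ) - ((-G).toNat : ℤ)) := by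
            rw [← h1, ← h2]
          simp only
          zify
          linear_combination h - h3
      · rintro ⟨t, ⟨⟨h1, h2⟩, ⟨h3, h4⟩, h5, h6⟩, h7⟩
        have e1 : f (fun i => v (Sum.inl i)) =
          (t (Sum.inl (true, true)) : ℤ) - (t (Sum.inl (true, false)) : ℤ) := by linarith
        have e2 : g (fun i => v (Sum.inl i)) =
          (t (Sum.inl (false, true)) : ℤ) - (t (Sum.inl (false, false)) : ℤ) := by linarith
        rw [e1, e2]
        rw [← h3, ← h4, ← h5, ← h6] at h7
        zify at h7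
        linear_combination h7

theorem DN.dioph (ar : Arith gen) {α : Type} {S : (α → ℕ) → Prop} (hS : Dioph {v | S v}) :
    DN gen ar.base S := by
  obtain ⟨δ, _, p, hp⟩ := Pool.Agent.Helper844.Dio.finite_dummies hS
  refine (DN.exF ar (κ := δ ⊕ Unit) (P := fun (t : δ ⊕ Unit → ℕ) (v : α → ℕ) =>
    p (Sum.elim v (fun d => t (Sum.inl d))) + (t (Sum.inr ()) : ℤ) = (t (Sum.inr ()) : ℤ)) ?_).congr ?_
  · refine ((DN.poly ar p).comp (fun z => match z with
      | Sum.inl (Sum.inl i) => (Sum.inr i : (δ ⊕ Unit) ⊕ α)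
      | Sum.inl (Sum.inr d) => Sum.inl (Sum.inl d)
      | Sum.inr _ => Sum.inl (Sum.inr ()))).congr ?_
    intro v
    have : (Sum.elim (fun i => v (Sum.inr i)) (fun d => v (Sum.inl (Sum.inl d))) : α ⊕ δ → ℕ) =
      (fun i => v (match (Sum.inl i : (α ⊕ δ) ⊕ Bool) with
      | Sum.inl (Sum.inl i) => (Sum.inr i : (δ ⊕ Unit) ⊕ α)
      | Sum.inl (Sum.inr d) => Sum.inl (Sum.inl d)
      | Sum.inr _ => Sum.inl (Sum.inr ()))) := by
      funext z; rcases z with z | z <;> rfl
    rw [this]
  · intro v
    refine (hp v).trans ?_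
    constructor
    · rintro ⟨t, ht⟩
      exact ⟨Sum.elim t (fun _ => 0), by simpa using ht⟩
    · rintro ⟨t, ht⟩
      exact ⟨fun d => t (Sum.inl d), by linarith⟩

/-- A universal partial function with undecidable domain. -/
def u (n : ℕ) : Part ℕ := (Denumerable.ofNat Nat.Partrec.Code n).eval 0

theorem u_partrec : Partrec u := by
  have h := Nat.Partrec.Code.eval_part.comp
    (Computable.ofNat Nat.Partrec.Code) (Computable.const (0 : ℕ))
  exact h

theorem u_not_computable : ¬ ComputablePred (fun n => (u n).Dom) := by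
  intro h
  refine ComputablePred.halting_problem 0 ?_
  have : ManyOneReducible (fun c : Nat.Partrec.Code => (Nat.Partrec.Code.eval c 0).Dom)
      (fun n => (u n).Dom) := by
    refine ⟨Encodable.encode, Computable.encode, ?_⟩
    intro c
    simp [u, Denumerable.ofNat_encode]
  exact ComputablePred.computable_of_manyOneReducible this h

/-- solvability of finite systems of equations, variables indexed by `ℕ` -/
def Sat (gen : A → M) (S : List (List (A ⊕ ℕ) × List (A ⊕ ℕ))) : Prop :=
  ∃ σ : ℕ → M, ∀ e ∈ S, (e.1.map (Sum.elim gen σ)).prod = (e.2.map (Sum.elim gen σ)).prod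

/-- **undecidability** -/
theorem sat_not_computable [Primcodable A] (ar : Arith gen) : ¬ ComputablePred (Sat gen) := by
  intro h
  apply u_not_computable
  obtain ⟨Q, ⟨κ, _, L, hL⟩, hQ⟩ := DN.dioph ar (α := Unit) (S := fun v => (u (v ())).Dom)
    (Pool.Agent.Helper844.Dio.dprm u_partrec.dom_re)
  let F : Unit ⊕ κ → ℕ := Sum.elim (fun _ => 0) (fun k => (Fintype.equivFin κ k : ℕ) + 1)
  have hF : Function.Injective F := by
    intro a b hab
    rcases a with a | a <;> rcases b with b | b
    · rfl
    · simp [F] at hab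
    · simp [F] at hab
    · have : (Fintype.equivFin κ a : ℕ) = (Fintype.equivFin κ b : ℕ) := by simpa [F] using hab
      have h2 := Fin.ext this
      rw [(Fintype.equivFin κ).injective h2]
  let inp : ℕ → List (A ⊕ ℕ) × List (A ⊕ ℕ) := fun n =>
    ([Sum.inr 0], (List.range n).map (fun _ => Sum.inl ar.base))
  let L' : List (List (A ⊕ ℕ) × List (A ⊕ ℕ)) := L.map (ren2 F)
  refine ComputablePred.computable_of_manyOneReducible ⟨fun n => inp n :: L', ?_, ?_⟩ h
  · refine (Primrec.list_cons.comp ?_ (Primrec.const _)).to_comp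
    refine Primrec.pair (Primrec.const _) ?_
    refine Primrec.list_map Primrec.list_range ?_
    exact (Primrec.const _).to₂
  · intro n
    have hrep : ∀ σ : ℕ → M, (((List.range n).map (fun _ => (Sum.inl ar.base : A ⊕ ℕ))).map
        (Sum.elim gen σ)).prod = gen ar.base ^ n := by
      intro σ
      rw [List.map_map]
      have : (Sum.elim gen σ ∘ fun (_ : ℕ) => (Sum.inl ar.base : A ⊕ ℕ)) = fun _ => gen ar.base := by
        funext i; rfl
      rw [this]
      simp
    refine (hQ (fun _ => n)).trans ((hL _).trans ?_)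
    constructor
    · rintro ⟨b, hb⟩
      let σ : ℕ → M := Function.extend F (Sum.elim (fun _ => gen ar.base ^ n) b) (fun _ => 1)
      have hσ : σ ∘ F = Sum.elim (fun _ => gen ar.base ^ n) b := by
        funext i
        exact hF.extend_apply (Sum.elim (fun _ => gen ar.base ^ n) b) (fun _ => 1) i
      refine ⟨σ, ?_⟩
      intro e he
      rcases List.mem_cons.1 he with rfl | he
      · simp only [inp, hrep]
        have : σ 0 = gen ar.base ^ n := by
          have := congrFun hσ (Sum.inl ())
          exact this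
        simp [this]
      · obtain ⟨t, ht, rfl⟩ := List.mem_map.1 he
        have := (ev_ren2 (gen := gen) F t σ).2 (by rw [hσ]; exact hb t ht)
        exact this
    · rintro ⟨σ, hσ⟩
      have h0 : σ 0 = gen ar.base ^ n := by
        have := hσ _ List.mem_cons_self
        simp only [inp, hrep] at this
        simpa using this
      refine ⟨fun k => σ (F (Sum.inr k)), ?_⟩
      intro t ht
      have h1 := hσ _ (List.mem_cons_of_mem _ (List.mem_map_of_mem ht))
      have h2 := (ev_ren2 (gen := gen) F t σ).1 h1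
      have e : σ ∘ F = Sum.elim (fun _ => gen ar.base ^ n) (fun k => σ (F (Sum.inr k))) := by
        funext i
        rcases i with i | i
        · exact h0
        · rfl
      rwa [e] at h2

end Pool.Agent.H176R3.OneRel.Df
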