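import Mathlib
import Pool.Agent.H176R3.OneRel.Dfn

set_option autoImplicit false

/-! The monoid `⟨a, b ∣ a a b b = 1⟩`. -/

namespace Pool.Agent.H176R3.OneRel

open Pool.Agent.H176R3.OneRel.Df

/-- a monoid presented by `a a b b = 1`, characterised by its universal property -/
structure Pres (M : Type) [Monoid M] where
  a : M
  b : M
  rel : a * (a * (b * b)) = 1
  ind : ∀ (P : M → Prop), P 1 → P a → P b → (∀ x y, P x → P y → P (x * y)) → ∀ x, P x
  lift : ∀ (N : Type) [Monoid N] (x y : N), x * (x * (y * y)) = 1 →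
    ∃ f : M →* N, f a = x ∧ f b = y

/-- the invariants: affine maps of `ℤ` together with a length -/
@[ext] structure Aff where
  e : ℤ
  t : ℤ
  n : ℤ

namespace Aff

instance : Mul Aff := ⟨fun x y => ⟨x.e * y.e, x.t + x.e * y.t, x.n + y.n⟩⟩
instance : One Aff := ⟨⟨1, 0, 0⟩⟩

@[simp] theorem mul_e (x y : Aff) : (x * y).e = x.e * y.e := rfl
@[simp] theorem mul_t (x y : Aff) : (x * y).t = x.t + x.e * y.t := rfl
@[simp] theorem mul_n (x y : Aff) : (x * y).n = x.n + y.n := rfl
@[simp] theorem one_e : (1 : Aff).e = 1 := rfl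
@[simp] theorem one_t : (1 : Aff).t = 0 := rfl
@[simp] theorem one_n : (1 : Aff).n = 0 := rfl

instance : Monoid Aff where
  mul_assoc x y z := by ext <;> simp <;> ring
  one_mul x := by ext <;> simp
  mul_one x := by ext <;> simp

theorem pow_eq (x : Aff) (hx : x.e = 1) (m : ℕ) : x ^ m = ⟨1, m * x.t, m * x.n⟩ := by
  induction m with
  | zero => ext <;> simp
  | succ m ih =>
    rw [pow_succ, ih]
    ext <;> simp [hx] <;> ring

end Aff

/-- pushing an `a` -/
def stA (s : List Bool) : List Bool := false :: s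

/-- pushing a `b` and reducing -/
def stB : List Bool → List Bool
  | true :: false :: false :: s => s
  | s => true :: s

theorem stB_stB (s : List Bool) : stB (stB (stA (stA s))) = s := rfl

/-- the stack of a word in the right units -/
def enc : List Bool → List Bool
  | [] => []
  | false :: u => false :: enc u
  | true :: u => true :: false :: false :: enc u

theorem enc_inj : ∀ u v : List Bool, enc u = enc v → u = v
  | [], [] => fun _ => rfl
  | [], false :: v => fun h => by simp [enc] at h
  | [], true :: v => fun h => by simp [enc] at h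
  | false :: u, [] => fun h => by simp [enc] at h
  | true :: u, [] => fun h => by simp [enc] at h
  | false :: u, true :: v => fun h => by simp [enc] at h
  | true :: u, false :: v => fun h => by simp [enc] at h
  | false :: u, false :: v => fun h => by
    simp only [enc, List.cons.injEq, true_and] at h
    rw [enc_inj u v h]
  | true :: u, true :: v => fun h => by
    simp only [enc, List.cons.injEq, true_and] at h
    rw [enc_inj u v h]

theorem good_stA (s : List Bool) (h : ∃ u, stA s = enc u) : ∃ u, s = enc u := by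
  obtain ⟨u, hu⟩ := h
  match u, hu with
  | [], hu => simp [stA, enc] at hu
  | true :: u, hu => simp [stA, enc] at hu
  | false :: u, hu =>
    simp only [stA, enc, List.cons.injEq, true_and] at hu
    exact ⟨u, hu⟩

theorem stB_cases (s : List Bool) : (∃ s', s = true :: false :: false :: s' ∧ stB s = s') ∨
    stB s = true :: s := by
  match s with
  | [] => right; rfl
  | false :: s => right; rfl
  | [true] => right; rfl
  | true :: true :: s => right; rfl
  | [true, false] => right; rfl
  | true :: false :: true :: s => right; rfl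
  | true :: false :: false :: s => left; exact ⟨s, rfl, rfl⟩

theorem good_stB (s : List Bool) (h : ∃ u, stB s = enc u) : ∃ u, s = enc u := by
  obtain ⟨u, hu⟩ := h
  rcases stB_cases s with ⟨s', h1, h2⟩ | h2
  · refine ⟨true :: u, ?_⟩
    rw [h1]
    rw [h2] at hu
    simp [enc, hu]
  · rw [h2] at hu
    match u, hu with
    | [], hu => simp [enc] at hu
    | false :: u, hu => simp [enc] at hu
    | true :: u, hu =>
      simp only [enc, List.cons.injEq, true_and] at hu
      exact ⟨false :: false :: u, by rw [hu]; rfl⟩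

/-- words commuting with `a` -/
theorem comm_a : ∀ u : List Bool, false :: u = u ++ [false] → u = List.replicate u.length false
  | [], _ => rfl
  | x :: u, h => by
    simp only [List.cons_append, List.cons.injEq] at h
    obtain ⟨h1, h2⟩ := h
    subst h1
    have := comm_a u h2
    rw [List.length_cons, List.replicate_succ]
    exact congrArg _ this

/-- the word `a^k c`, reversed -/
def T (k : ℕ) : List Bool := true :: List.replicate k false

theorem T_comm (k : ℕ) : ∀ (n : ℕ) (u : List Bool), u.length ≤ n → T k ++ u = u ++ T k →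
    ∃ m : ℕ, u = (List.replicate m (T k)).flatten := by
  intro n
  induction n with
  | zero =>
    intro u hu _
    exact ⟨0, by simpa using List.length_eq_zero_iff.1 (Nat.le_zero.1 hu)⟩
  | succ n ih =>
    intro u hu h
    by_cases h0 : u = []
    · exact ⟨0, by simpa using h0⟩
    rcases List.append_eq_append_iff.1 h with ⟨v, h1, h2⟩ | ⟨v, h1, h2⟩
    · -- u = T ++ v
      have h3 : T k ++ v = v ++ T k := by
        rw [h1] at h2
        exact h2
      have h4 : v.length ≤ n := by
        have : u.length = (T k).length + v.length := by rw [h1, List.length_append]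
        have h5 : (T k).length = k + 1 := by simp [T]
        omega
      obtain ⟨m, hm⟩ := ih v h4 h3
      refine ⟨m + 1, ?_⟩
      rw [List.replicate_succ, List.flatten_cons, ← hm, ← h1]
    · -- T = u ++ v
      by_cases hv : v = []
      · subst hv
        refine ⟨1, ?_⟩
        simp only [List.append_nil] at h1
        simp [h1]
      · exfalso
        have h3 : u ++ v = v ++ u := by rw [← h1, h2]
        have c1 : (T k).count true = 1 := by simp [T, List.count_replicate]
        have c2 : (u ++ v).count true = 1 := by rw [← h1]; exact c1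
        rw [List.count_append] at c2
        have hu1 : 1 ≤ u.count true := by
          rcases u with _ | ⟨x, u⟩
          · exact absurd rfl h0
          · have : x = true := by
              have := h1
              simp only [T, List.cons_append, List.cons.injEq] at this
              exact this.1.symm
            subst this
            simp
        have hv1 : 1 ≤ v.count true := by
          rcases v with _ | ⟨x, v⟩
          · exact absurd rfl hv
          · have : x = true := by
              have := h1.trans h3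
              simp only [T, List.cons_append, List.cons.injEq] at this
              exact this.1.symm
            subst this
            simp
        omega

namespace Pres

variable {M : Type} [Monoid M] (p : Pres M)

/-- the second generator of the right units -/
def c : M := p.a * (p.a * p.b)

theorem cb : p.c * p.b = 1 := by
  unfold c
  rw [mul_assoc, mul_assoc]
  exact p.rel

theorem exists_act : ∃ f : M →* (Function.End (List Bool))ᵐᵒᵖ,
    f p.a = MulOpposite.op (stA : Function.End (List Bool)) ∧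
    f p.b = MulOpposite.op (stB : Function.End (List Bool)) := by
  apply p.lift
  apply MulOpposite.unop_injective
  funext s
  exact stB_stB s

/-- the action on stacks -/
noncomputable def act (m : M) (s : List Bool) : List Bool :=
  MulOpposite.unop (p.exists_act.choose m) s

theorem act_one (s : List Bool) : p.act 1 s = s := by
  unfold act
  rw [map_one]
  rfl

theorem act_mul (x y : M) (s : List Bool) : p.act (x * y) s = p.act y (p.act x s) := by
  unfold act
  rw [map_mul]
  rfl

theorem act_a (s : List Bool) : p.act p.a s = stA s := by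
  unfold act
  rw [p.exists_act.choose_spec.1]
  rfl

theorem act_b (s : List Bool) : p.act p.b s = stB s := by
  unfold act
  rw [p.exists_act.choose_spec.2]
  rfl

/-- evaluation of words in the right units (reversed) -/
def val : List Bool → M
  | [] => 1
  | false :: u => val u * p.a
  | true :: u => val u * p.c

theorem val_append (u v : List Bool) : p.val (u ++ v) = p.val v * p.val u := by
  induction u with
  | nil => simp [val]
  | cons x u ih => cases x <;> simp [val, ih, mul_assoc]

theorem act_c (s : List Bool) : p.act p.c s = true :: false :: false :: s := by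
  unfold c
  rw [act_mul, act_mul, act_a, act_a, act_b]
  rfl

theorem act_val (u : List Bool) (s : List Bool) : p.act (p.val u) s = enc u ++ s := by
  induction u generalizing s with
  | nil => simp [val, enc, act_one]
  | cons x u ih =>
    cases x
    · rw [val, act_mul, ih, act_a]; rfl
    · rw [val, act_mul, ih, act_c]; rfl

theorem val_inj {u v : List Bool} (h : p.val u = p.val v) : u = v := by
  apply enc_inj
  have := congrArg (fun m => p.act m []) h
  simpa [act_val] using this

/-- evaluation of stacks -/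
def evst : List Bool → M
  | [] => 1
  | false :: s => evst s * p.a
  | true :: s => evst s * p.b

theorem evst_act (m : M) : ∀ s : List Bool, p.evst (p.act m s) = p.evst s * m := by
  refine p.ind (fun m => ∀ s : List Bool, p.evst (p.act m s) = p.evst s * m) ?_ ?_ ?_ ?_ m
  · intro s; rw [act_one, mul_one]
  · intro s; rw [act_a]; rfl
  · intro s
    rw [act_b]
    rcases stB_cases s with ⟨s', h1, h2⟩ | h2
    · rw [h2, h1]
      simp only [evst]
      rw [mul_assoc, mul_assoc, mul_assoc, p.rel, mul_one]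
    · rw [h2]; rfl
  · intro x y hx hy s
    rw [act_mul, hy, hx, mul_assoc]

theorem evst_enc (u : List Bool) : p.evst (enc u) = p.val u := by
  induction u with
  | nil => rfl
  | cons x u ih =>
    cases x
    · simp only [enc, evst, val, ih]
    · simp only [enc, evst, val, ih, c, mul_assoc]

theorem good_act (m : M) : ∀ s : List Bool, (∃ u, p.act m s = enc u) → ∃ u, s = enc u := by
  refine p.ind (fun m => ∀ s : List Bool, (∃ u, p.act m s = enc u) → ∃ u, s = enc u) ?_ ?_ ?_ ?_ m
  · intro s h; rwa [act_one] at h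
  · intro s h; rw [act_a] at h; exact good_stA s h
  · intro s h; rw [act_b] at h; exact good_stB s h
  · intro x y hx hy s h
    rw [act_mul] at h
    exact hx s (hy _ h)

theorem exists_val {z y : M} (h : z * y = 1) : ∃ u, z = p.val u := by
  have h1 : p.act y (p.act z []) = [] := by
    rw [← act_mul, h, act_one]
  obtain ⟨u, hu⟩ := p.good_act y (p.act z []) ⟨[], h1⟩
  refine ⟨u, ?_⟩
  have h2 := p.evst_act z []
  rw [hu, evst_enc] at h2
  rw [h2]
  simp [evst]

theorem a_inv : p.a * (p.a * (p.b * p.b)) = 1 := p.rel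

theorem val_inv (u : List Bool) : ∃ y, p.val u * y = 1 := by
  induction u with
  | nil => exact ⟨1, by simp [val]⟩
  | cons x u ih =>
    obtain ⟨y, hy⟩ := ih
    cases x
    · refine ⟨(p.a * (p.b * p.b)) * y, ?_⟩
      have : p.val (false :: u) * (p.a * (p.b * p.b) * y) =
        p.val u * ((p.a * (p.a * (p.b * p.b))) * y) := by simp only [val, mul_assoc]
      rw [this, p.rel, one_mul, hy]
    · refine ⟨p.b * y, ?_⟩
      have : p.val (true :: u) * (p.b * y) = p.val u * ((p.c * p.b) * y) := by
        simp only [val, mul_assoc]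
      rw [this, p.cb, one_mul, hy]

theorem val_replicate (n : ℕ) : p.val (List.replicate n false) = p.a ^ n := by
  induction n with
  | zero => simp [val]
  | succ n ih => rw [List.replicate_succ, val, ih, pow_succ]

include p in
/-- the only unit is `1` -/
theorem units_trivial (g : Mˣ) : g = 1 := by
  obtain ⟨u, hu⟩ := p.exists_val g.mul_inv
  obtain ⟨v, hv⟩ := p.exists_val g.inv_mul
  have h1 : p.val (v ++ u) = p.val [] := by
    rw [val_append, ← hu, ← hv, g.mul_inv]; rfl
  have h2 := p.val_inj h1
  have h3 : u = [] := (List.append_eq_nil_iff.1 h2).2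
  ext
  rw [hu, h3]
  rfl

/-! ### the invariants -/

theorem exists_theta : ∃ f : M →* Aff, f p.a = ⟨-1, 0, 1⟩ ∧ f p.b = ⟨-1, 1, -1⟩ := by
  apply p.lift
  ext <;> simp

/-- the homomorphism to the Klein bottle group -/
noncomputable def th : M →* Aff := p.exists_theta.choose

theorem th_a : p.th p.a = ⟨-1, 0, 1⟩ := p.exists_theta.choose_spec.1
theorem th_b : p.th p.b = ⟨-1, 1, -1⟩ := p.exists_theta.choose_spec.2
theorem th_c : p.th p.c = ⟨-1, 1, 1⟩ := by
  unfold c
  rw [map_mul, map_mul, th_a, th_b]
  ext <;> simp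

theorem th_a_pow (n : ℕ) : (p.th (p.a ^ n)).n = n := by
  induction n with
  | zero => simp
  | succ n ih => rw [pow_succ, map_mul, Aff.mul_n, ih, th_a]; simp

theorem pow_inj : Function.Injective (fun n : ℕ => p.a ^ n) := by
  intro m n h
  have := congrArg (fun x => (p.th x).n) h
  simp only [th_a_pow] at this
  exact_mod_cast this

theorem th_aa (n : ℕ) : p.th (p.a ^ n * p.a ^ n) = ⟨1, 0, 2 * n⟩ := by
  have h : p.a ^ n * p.a ^ n = (p.a * p.a) ^ n := by
    rw [← pow_add, ← pow_two, ← pow_mul, two_mul]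
  have e : p.th (p.a * p.a) = ⟨1, 0, 2⟩ := by
    rw [map_mul, th_a]; ext <;> simp
  rw [h, map_pow, e, Aff.pow_eq _ rfl]
  ext <;> simp [mul_comm]

theorem th_ac : p.th (p.a * p.c) = ⟨1, -1, 2⟩ := by
  rw [map_mul, th_a, th_c]; ext <;> simp

/-! ### definable relations -/

/-- the conjugacy type relation -/
def D (z z' : M) : Prop := ∃ W W' y : M, z * W' = W * z' ∧ W * y = 1 ∧ W' * y = 1

theorem D_sound {z z' : M} (h : D z z') {t t' l l' : ℤ} (h1 : p.th z = ⟨1, t, l⟩)
    (h2 : p.th z' = ⟨1, t', l'⟩) : (t = t' ∨ t = -t') ∧ l = l' := by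
  obtain ⟨W, W', y, e1, e2, e3⟩ := h
  have f1 := congrArg p.th e1
  have f2 := congrArg p.th e2
  have f3 := congrArg p.th e3
  rw [map_mul, map_mul, h1, h2] at f1
  rw [map_mul, map_one] at f2 f3
  generalize p.th W = w at *
  generalize p.th W' = w' at *
  generalize p.th y = v at *
  have a1 := congrArg Aff.e f1
  have a2 := congrArg Aff.t f1
  have a3 := congrArg Aff.n f1
  have b1 := congrArg Aff.e f2
  have b2 := congrArg Aff.t f2
  have b3 := congrArg Aff.n f2
  have c1 := congrArg Aff.e f3
  have c2 := congrArg Aff.t f3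
  have c3 := congrArg Aff.n f3
  simp only [Aff.mul_e, Aff.mul_t, Aff.mul_n, Aff.one_e, Aff.one_t, Aff.one_n] at *
  rcases Int.eq_one_or_neg_one_of_mul_eq_one b1 with hw | hw
  · rw [hw] at a1 a2 b1 b2
    have : w'.e = 1 := by linarith
    rw [this] at c1 c2
    refine ⟨Or.inl ?_, ?_⟩ <;> linarith
  · rw [hw] at a1 a2 b1 b2
    have : w'.e = -1 := by linarith
    rw [this] at c1 c2
    refine ⟨Or.inr ?_, ?_⟩ <;> linarith

/-- common right inverse -/
def Sim (x x' : M) : Prop := ∃ y, x * y = 1 ∧ x' * y = 1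

theorem Sim.mul {x x' z z' : M} (h : Sim x x') (h' : Sim z z') : Sim (x * z) (x' * z') := by
  obtain ⟨y, h1, h2⟩ := h
  obtain ⟨w, h3, h4⟩ := h'
  refine ⟨w * y, ?_, ?_⟩
  · rw [mul_assoc, ← mul_assoc z, h3, one_mul, h1]
  · rw [mul_assoc, ← mul_assoc z', h4, one_mul, h2]

/-- chains -/
def E (x x' : M) : Prop := Relation.ReflTransGen Sim x x'

/-- right invertible -/
def RI (x : M) : Prop := ∃ y, x * y = 1

theorem RI.sim {x : M} (h : RI x) : Sim x x := by
  obtain ⟨y, hy⟩ := h
  exact ⟨y, hy, hy⟩

theorem RI.mul {x y : M} (h : RI x) (h' : RI y) : RI (x * y) := by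
  obtain ⟨z, hz, _⟩ := h.sim.mul h'.sim
  exact ⟨z, hz⟩

theorem RI.pow {x : M} (h : RI x) (n : ℕ) : RI (x ^ n) := by
  induction n with
  | zero => exact ⟨1, by simp⟩
  | succ n ih => rw [pow_succ]; exact ih.mul h

theorem E.mul_right {x x' z : M} (h : E x x') (hz : RI z) : E (x * z) (x' * z) :=
  Relation.ReflTransGen.lift (fun x => x * z) (fun _ _ h => Sim.mul h hz.sim) _ _ h

theorem E.mul_left {x x' z : M} (h : E x x') (hz : RI z) : E (z * x) (z * x') :=
  Relation.ReflTransGen.lift (fun x => z * x) (fun _ _ h => Sim.mul hz.sim h) _ _ h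

theorem E.trans {x y z : M} (h : E x y) (h' : E y z) : E x z := Relation.ReflTransGen.trans h h'

theorem E.refl (x : M) : E x x := Relation.ReflTransGen.refl

theorem D_of_E {z z' : M} (h : E z z') : D z z' := by
  induction h with
  | refl => exact ⟨1, 1, 1, by simp, by simp, by simp⟩
  | @tail x x' _ hs ih =>
    obtain ⟨W, W', y, h1, h2, h3⟩ := ih
    obtain ⟨v, h4, h5⟩ := hs
    refine ⟨W * x, W' * x', v * y, ?_, ?_, ?_⟩
    · rw [← mul_assoc, h1]
    · rw [mul_assoc, ← mul_assoc x, h4, one_mul, h2]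
    · rw [mul_assoc, ← mul_assoc x', h5, one_mul, h3]

theorem RI_a : RI p.a := ⟨_, p.rel⟩
theorem RI_c : RI p.c := ⟨_, p.cb⟩

theorem sim_aa : Sim (p.a * p.a) (p.c * p.c) := by
  refine ⟨p.b * p.b, ?_, ?_⟩
  · rw [mul_assoc]; exact p.rel
  · rw [mul_assoc, ← mul_assoc p.c p.b, p.cb, one_mul, p.cb]

theorem E_aa : E (p.a * p.a) (p.c * p.c) := Relation.ReflTransGen.single p.sim_aa

theorem E_cc : E (p.c * p.c) (p.a * p.a) := by
  refine Relation.ReflTransGen.single ?_
  obtain ⟨y, h1, h2⟩ := p.sim_aa
  exact ⟨y, h2, h1⟩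

/-- `aa` is central up to `E` -/
theorem central_val (u : List Bool) : E (p.a * p.a * p.val u) (p.val u * (p.a * p.a)) := by
  induction u with
  | nil => simp only [val, mul_one, one_mul]; exact E.refl _
  | cons x u ih =>
    have hz : RI (p.val u) := p.val_inv u
    cases x
    · simp only [val]
      have h1 := ih.mul_right p.RI_a
      simpa only [mul_assoc] using h1
    · simp only [val]
      have h1 := ih.mul_right p.RI_c
      have h2 : E (p.val u * ((p.a * p.a) * p.c)) (p.val u * (p.c * (p.a * p.a))) := by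
        refine E.mul_left ?_ hz
        have h3 : E ((p.a * p.a) * p.c) ((p.c * p.c) * p.c) := p.E_aa.mul_right p.RI_c
        have h4 : E (p.c * (p.c * p.c)) (p.c * (p.a * p.a)) := p.E_cc.mul_left p.RI_c
        rw [mul_assoc p.c p.c p.c] at h3
        exact h3.trans h4
      refine E.trans (y := p.val u * ((p.a * p.a) * p.c)) ?_ ?_
      · simpa only [mul_assoc] using h1
      · simpa only [mul_assoc] using h2

theorem central {q : M} (hq : RI q) (k : ℕ) : E ((p.a * p.a) ^ k * q) (q * (p.a * p.a) ^ k) := by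
  obtain ⟨y, hy⟩ := hq
  have hq : RI q := ⟨y, hy⟩
  obtain ⟨u, rfl⟩ := p.exists_val hy
  have hZ : RI (p.a * p.a) := p.RI_a.mul p.RI_a
  induction k with
  | zero => simp only [pow_zero, one_mul, mul_one]; exact E.refl _
  | succ k ih =>
    have h1 := ih.mul_left hZ
    have h2 := (p.central_val u).mul_right (hZ.pow k)
    rw [pow_succ']
    refine E.trans (y := (p.a * p.a) * (p.val u * (p.a * p.a) ^ k)) ?_ ?_
    · simpa only [mul_assoc] using h1
    · simpa only [mul_assoc] using h2

/-- `(ac)^m (ca)^m ≈ (aa)^(2m)` -/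
theorem E_PQ (m : ℕ) : E ((p.a * p.c) ^ m * (p.c * p.a) ^ m) ((p.a * p.a) ^ (2 * m)) := by
  have hP : RI ((p.a * p.c) ^ m) := (p.RI_a.mul p.RI_c).pow m
  have hQ : RI ((p.c * p.a) ^ m) := (p.RI_c.mul p.RI_a).pow m
  have hZ : RI (p.a * p.a) := p.RI_a.mul p.RI_a
  induction m with
  | zero => simp only [pow_zero, mul_one, mul_zero]; exact E.refl _
  | succ m ih =>
    have hP' : RI ((p.a * p.c) ^ m) := (p.RI_a.mul p.RI_c).pow m
    have hQ' : RI ((p.c * p.a) ^ m) := (p.RI_c.mul p.RI_a).pow m
    have e1 : (p.a * p.c) ^ (m + 1) * (p.c * p.a) ^ (m + 1) =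
        (p.a * p.c) ^ m * ((p.a * ((p.c * p.c) * p.a)) * (p.c * p.a) ^ m) := by
      rw [pow_succ, pow_succ']; simp only [mul_assoc]
    rw [e1]
    have h1 : E ((p.a * p.c) ^ m * ((p.a * ((p.c * p.c) * p.a)) * (p.c * p.a) ^ m))
        ((p.a * p.c) ^ m * ((p.a * ((p.a * p.a) * p.a)) * (p.c * p.a) ^ m)) :=
      E.mul_left (E.mul_right (E.mul_left (E.mul_right p.E_cc p.RI_a) p.RI_a) hQ') hP'
    refine h1.trans ?_
    have e2 : (p.a * p.c) ^ m * ((p.a * ((p.a * p.a) * p.a)) * (p.c * p.a) ^ m) =
        (p.a * p.c) ^ m * ((p.a * p.a) ^ 2 * (p.c * p.a) ^ m) := by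
      rw [pow_two]; simp only [mul_assoc]
    rw [e2]
    have h2 := (p.central hQ' 2).mul_left hP'
    refine h2.trans ?_
    have h3 := (ih hP' hQ').mul_right (hZ.pow 2)
    rw [← pow_add] at h3
    have e3 : 2 * m + 2 = 2 * (m + 1) := by ring
    rw [e3] at h3
    simpa only [mul_assoc] using h3

/-- `((aa)^n ac)^m ≈ (ac)^m (aa)^(mn)` -/
theorem E_T (n m : ℕ) : E (((p.a * p.a) ^ n * (p.a * p.c)) ^ m)
    ((p.a * p.c) ^ m * (p.a * p.a) ^ (m * n)) := by
  have hZ : RI (p.a * p.a) := p.RI_a.mul p.RI_a
  have hY : RI (p.a * p.c) := p.RI_a.mul p.RI_c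
  induction m with
  | zero => simp only [pow_zero, zero_mul, mul_one]; exact E.refl _
  | succ m ih =>
    have h1 := ih.mul_right ((hZ.pow n).mul hY)
    rw [pow_succ]
    refine h1.trans ?_
    have e1 : (p.a * p.c) ^ m * (p.a * p.a) ^ (m * n) * ((p.a * p.a) ^ n * (p.a * p.c)) =
        (p.a * p.c) ^ m * ((p.a * p.a) ^ ((m + 1) * n) * (p.a * p.c)) := by
      have : (m + 1) * n = m * n + n := by ring
      rw [this, pow_add]
      simp only [mul_assoc]
    rw [e1]
    have h2 := (p.central hY ((m + 1) * n)).mul_left (hY.pow m)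
    refine h2.trans ?_
    rw [pow_succ]
    simp only [mul_assoc]
    exact E.refl _

/-- powers of `a^k c` -/
theorem comm_T {z y : M} (h : z * y = 1) (k : ℕ) (hc : z * (p.a ^ k * p.c) = (p.a ^ k * p.c) * z) :
    ∃ m : ℕ, z = (p.a ^ k * p.c) ^ m := by
  obtain ⟨u, rfl⟩ := p.exists_val h
  have hT : p.val (T k) = p.a ^ k * p.c := by
    rw [T, val, val_replicate]
  rw [← hT, ← val_append, ← val_append] at hc
  obtain ⟨m, hm⟩ := T_comm k _ u le_rfl (p.val_inj hc)
  refine ⟨m, ?_⟩
  rw [hm, ← hT]
  clear hm hc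
  induction m with
  | zero => simp [val]
  | succ m ih =>
    rw [List.replicate_succ, List.flatten_cons, val_append, ih, pow_succ]

theorem num_iff (z : M) : (∃ n : ℕ, z = p.a ^ n) ↔ ∃ y, z * y = 1 ∧ z * p.a = p.a * z := by
  constructor
  · rintro ⟨n, rfl⟩
    obtain ⟨y, hy⟩ := p.RI_a.pow n
    exact ⟨y, hy, by rw [← pow_succ, ← pow_succ']⟩
  · rintro ⟨y, hy, hc⟩
    obtain ⟨u, rfl⟩ := p.exists_val hy
    have h1 : p.val (false :: u) = p.val (u ++ [false]) := by
      rw [val_append, val, hc]
      simp [val]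
    have h2 := comm_a u (p.val_inj h1)
    refine ⟨u.length, ?_⟩
    rw [← val_replicate, ← h2]

/-- the multiplication relation -/
theorem mul_iff (x y w : M) : (∃ m n : ℕ, x = p.a ^ m ∧ y = p.a ^ n ∧ w = p.a ^ (m * n)) ↔
    ((∃ n : ℕ, x = p.a ^ n) ∧ (∃ n : ℕ, y = p.a ^ n) ∧ (∃ n : ℕ, w = p.a ^ n)) ∧
    ∃ z y1 P y2 Q : M, (z * y1 = 1 ∧ z * (x * x * (p.a * p.c)) = (x * x * (p.a * p.c)) * z) ∧
      (P * y2 = 1 ∧ P * (p.a * p.c) = (p.a * p.c) * P) ∧ (P * p.a = p.a * Q ∧
      D (P * Q) (y * y * (y * y)) ∧ D z (P * (w * w))) := by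
  constructor
  · rintro ⟨n, m, rfl, rfl, rfl⟩
    refine ⟨⟨⟨n, rfl⟩, ⟨m, rfl⟩, ⟨n * m, rfl⟩⟩, ?_⟩
    have hZ : RI (p.a * p.a) := p.RI_a.mul p.RI_a
    have hY : RI (p.a * p.c) := p.RI_a.mul p.RI_c
    have ez : ∀ k : ℕ, p.a ^ k * p.a ^ k = (p.a * p.a) ^ k := by
      intro k
      rw [← pow_add, ← pow_two, ← pow_mul, two_mul]
    obtain ⟨y1, hy1⟩ := ((hZ.pow n).mul hY).pow m
    obtain ⟨y2, hy2⟩ := hY.pow m
    refine ⟨((p.a * p.a) ^ n * (p.a * p.c)) ^ m, y1, (p.a * p.c) ^ m, y2, (p.c * p.a) ^ m,
      ⟨hy1, ?_⟩, ⟨hy2, ?_⟩, ?_, ?_, ?_⟩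
    · rw [ez, ← pow_succ, ← pow_succ']
    · rw [← pow_succ, ← pow_succ']
    · clear hy1 hy2
      induction m with
      | zero => simp
      | succ m ih =>
        rw [pow_succ, pow_succ]
        calc (p.a * p.c) ^ m * (p.a * p.c) * p.a = ((p.a * p.c) ^ m * p.a) * (p.c * p.a) := by
              simp only [mul_assoc]
          _ = _ := by rw [ih]; simp only [mul_assoc]
    · have h := p.E_PQ m
      have e : p.a ^ m * p.a ^ m * (p.a ^ m * p.a ^ m) = (p.a * p.a) ^ (2 * m) := by
        rw [ez, ← pow_add, two_mul]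
      rw [e]
      exact D_of_E h
    · have h := p.E_T n m
      rw [ez, mul_comm n m]
      exact D_of_E h
  · rintro ⟨⟨⟨n, rfl⟩, ⟨m, rfl⟩, ⟨k, rfl⟩⟩, z, y1, P, y2, Q, ⟨h1, h2⟩, ⟨h3, h4⟩, h5, h6, h7⟩
    have eT : p.a ^ n * p.a ^ n * (p.a * p.c) = p.a ^ (2 * n + 1) * p.c := by
      rw [pow_succ, two_mul, pow_add]
      simp only [mul_assoc]
    rw [eT] at h2
    obtain ⟨m', rfl⟩ := p.comm_T h1 _ h2
    have eP : p.a * p.c = p.a ^ 1 * p.c := by rw [pow_one]
    rw [eP] at h4
    obtain ⟨m'', rfl⟩ := p.comm_T h3 _ h4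
    rw [← eP] at *
    rw [← eT] at *
    have tP : p.th ((p.a * p.c) ^ m'') = ⟨1, -m'', 2 * m''⟩ := by
      rw [map_pow, th_ac, Aff.pow_eq _ rfl]
      ext <;> simp [mul_comm]
    have tQ : p.th Q = ⟨1, m'', 2 * m''⟩ := by
      have h := congrArg p.th h5
      rw [map_mul, map_mul, tP, th_a] at h
      have e1 := congrArg Aff.e h
      have e2 := congrArg Aff.t h
      have e3 := congrArg Aff.n h
      simp only [Aff.mul_e, Aff.mul_t, Aff.mul_n] at e1 e2 e3
      ext
      · linarith
      · simp only; linarith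
      · simp only; linarith
    have tPQ : p.th ((p.a * p.c) ^ m'' * Q) = ⟨1, 0, 4 * m''⟩ := by
      rw [map_mul, tP, tQ]
      ext <;> simp <;> ring
    have ty : p.th (p.a ^ m * p.a ^ m * (p.a ^ m * p.a ^ m)) = ⟨1, 0, 4 * m⟩ := by
      rw [map_mul, th_aa]
      ext <;> simp <;> ring
    obtain ⟨-, h8⟩ := p.D_sound h6 tPQ ty
    have hm : m'' = m := by
      have : (4 : ℤ) * m'' = 4 * m := h8
      omega
    subst hm
    have tz : p.th ((p.a ^ n * p.a ^ n * (p.a * p.c)) ^ m') = ⟨1, -m', m' * (2 * n + 2)⟩ := by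
      have e : p.th (p.a ^ n * p.a ^ n * (p.a * p.c)) = ⟨1, -1, 2 * n + 2⟩ := by
        rw [map_mul, th_aa, th_ac]
        ext <;> simp
      rw [map_pow, e, Aff.pow_eq _ rfl]
      ext <;> simp
    have tw : p.th ((p.a * p.c) ^ m'' * (p.a ^ k * p.a ^ k)) = ⟨1, -m'', 2 * m'' + 2 * k⟩ := by
      rw [map_mul, tP, th_aa]
      ext <;> simp
    obtain ⟨h9, h10⟩ := p.D_sound h7 tz tw
    have hm' : m' = m'' := by
      rcases h9 with h9 | h9 <;> omega
    subst hm'
    refine ⟨n, m', rfl, rfl, ?_⟩
    have hk : (k : ℤ) = n * m' := by linarith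
    have hk' : k = n * m' := by exact_mod_cast hk
    rw [hk']

end Pres

end Pool.Agent.H176R3.OneRel
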