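import Mathlib
import Pool.Agent.H176R3.OneRel.Core

set_option autoImplicit false

/-! Undecidability of the Diophantine problem of `⟨a, b ∣ a a b b = 1⟩`. -/

namespace Pool.Agent.H176R3.OneRel

open Pool.Agent.H176R3.OneRel.Df

namespace Pres

variable {M : Type} [Monoid M] (p : Pres M) {A : Type} (gen : A → M) (i j : A)

theorem dfn_D : Dfn2 gen (D : M → M → Prop) := by
  unfold Dfn2 D
  refine Dfn.ex1 ?_
  beta_reduce
  refine Dfn.ex1 ?_
  beta_reduce
  refine Dfn.ex1 ?_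
  beta_reduce
  refine Dfn.and ?_ (Dfn.and ?_ ?_)
  · exact Dfn.eq ((TF.proj _).mul (TF.proj _)) ((TF.proj _).mul (TF.proj _))
  · exact Dfn.eq ((TF.proj _).mul (TF.proj _)) TF.one
  · exact Dfn.eq ((TF.proj _).mul (TF.proj _)) TF.one

variable {gen i j}

theorem dfn_num (hi : gen i = p.a) : Dfn1 gen (fun x => ∃ n : ℕ, x = gen i ^ n) := by
  unfold Dfn1
  refine Dfn.congr (P := fun a => ∃ y, a () * y = 1 ∧ a () * gen i = gen i * a ()) ?_ ?_
  · refine Dfn.ex1 ?_
    beta_reduce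
    refine Dfn.and ?_ ?_
    · exact Dfn.eq ((TF.proj _).mul (TF.proj _)) TF.one
    · exact Dfn.eq ((TF.proj _).mul (TF.const _)) ((TF.const _).mul (TF.proj _))
  · intro a
    rw [hi]
    exact p.num_iff (a ())

theorem tf_a (hi : gen i = p.a) {ι : Type} : TF gen (fun _ : ι → M => p.a) := by
  rw [← hi]; exact TF.const i

theorem tf_c (hi : gen i = p.a) (hj : gen j = p.b) {ι : Type} :
    TF gen (fun _ : ι → M => p.c) := by
  unfold c
  rw [← hi, ← hj]
  exact (TF.const i).mul ((TF.const i).mul (TF.const j))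

theorem dfn_mul (hi : gen i = p.a) (hj : gen j = p.b) :
    Dfn3 gen (fun x y z => ∃ m n : ℕ, x = gen i ^ m ∧ y = gen i ^ n ∧ z = gen i ^ (m * n)) := by
  unfold Dfn3
  refine Dfn.congr (P := fun a : Fin 3 → M =>
    ((∃ n : ℕ, a 0 = gen i ^ n) ∧ (∃ n : ℕ, a 1 = gen i ^ n) ∧ (∃ n : ℕ, a 2 = gen i ^ n)) ∧
    ∃ z y1 P y2 Q : M, (z * y1 = 1 ∧ z * (a 0 * a 0 * (p.a * p.c)) = (a 0 * a 0 * (p.a * p.c)) * z) ∧
      (P * y2 = 1 ∧ P * (p.a * p.c) = (p.a * p.c) * P) ∧ (P * p.a = p.a * Q ∧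
      D (P * Q) (a 1 * a 1 * (a 1 * a 1)) ∧ D z (P * (a 2 * a 2)))) ?_ ?_
  · refine Dfn.and (Dfn.and ?_ (Dfn.and ?_ ?_)) ?_
    · exact (p.dfn_num hi).ap (TF.proj _)
    · exact (p.dfn_num hi).ap (TF.proj _)
    · exact (p.dfn_num hi).ap (TF.proj _)
    · refine Dfn.ex1 ?_
      beta_reduce
      refine Dfn.ex1 ?_
      beta_reduce
      refine Dfn.ex1 ?_
      beta_reduce
      refine Dfn.ex1 ?_
      beta_reduce
      refine Dfn.ex1 ?_
      beta_reduce
      have ha := fun {ι : Type} => p.tf_a (ι := ι) hi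
      have hc := fun {ι : Type} => p.tf_c (ι := ι) hi hj
      refine Dfn.and (Dfn.and ?_ ?_) (Dfn.and (Dfn.and ?_ ?_) (Dfn.and ?_ (Dfn.and ?_ ?_)))
      · exact Dfn.eq ((TF.proj _).mul (TF.proj _)) TF.one
      · exact Dfn.eq ((TF.proj _).mul (((TF.proj _).mul (TF.proj _)).mul (ha.mul hc)))
          ((((TF.proj _).mul (TF.proj _)).mul (ha.mul hc)).mul (TF.proj _))
      · exact Dfn.eq ((TF.proj _).mul (TF.proj _)) TF.one
      · exact Dfn.eq ((TF.proj _).mul (ha.mul hc)) ((ha.mul hc).mul (TF.proj _))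
      · exact Dfn.eq ((TF.proj _).mul ha) (ha.mul (TF.proj _))
      · exact (dfn_D gen).ap ((TF.proj _).mul (TF.proj _))
          (((TF.proj _).mul (TF.proj _)).mul ((TF.proj _).mul (TF.proj _)))
      · exact (dfn_D gen).ap (TF.proj _) ((TF.proj _).mul ((TF.proj _).mul (TF.proj _)))
  · intro a
    rw [hi]
    exact p.mul_iff (a 0) (a 1) (a 2)

/-- the copy of arithmetic -/
def arith (hi : gen i = p.a) (hj : gen j = p.b) : Arith gen where
  base := i
  inj := by rw [hi]; exact p.pow_inj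
  num := p.dfn_num hi
  mul := p.dfn_mul hi hj

theorem sat_not_computable [Primcodable A] (hi : gen i = p.a) (hj : gen j = p.b) :
    ¬ ComputablePred (Sat gen) := Df.sat_not_computable (p.arith hi hj)

end Pres

/-- the relator `a a b b` -/
def w : List (Fin 2) := [0, 0, 1, 1]

/-- the congruence -/
def cg : Con (FreeMonoid (Fin 2)) :=
  conGen (fun x y : FreeMonoid (Fin 2) => x = FreeMonoid.ofList w ∧ y = 1)

theorem ofList_w : FreeMonoid.ofList w =
    FreeMonoid.of (0 : Fin 2) * (FreeMonoid.of 0 * (FreeMonoid.of 1 * FreeMonoid.of 1)) := rfl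

/-- the presentation -/
def pres : Pres cg.Quotient where
  a := cg.mk' (FreeMonoid.of 0)
  b := cg.mk' (FreeMonoid.of 1)
  rel := by
    rw [← map_mul, ← map_mul, ← map_mul, ← ofList_w, ← map_one cg.mk']
    exact (Con.eq cg).2 (ConGen.Rel.of _ _ ⟨rfl, rfl⟩)
  ind := by
    intro P h1 ha hb hm x
    obtain ⟨x, rfl⟩ := Con.mk'_surjective (c := cg) x
    induction x using FreeMonoid.inductionOn' with
    | one => rw [map_one]; exact h1
    | of_mul y x ih =>
      rw [map_mul]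
      refine hm _ _ ?_ ih
      fin_cases y
      · exact ha
      · exact hb
  lift := by
    intro N _ x y h
    let f : FreeMonoid (Fin 2) →* N := FreeMonoid.lift ![x, y]
    have hf : cg ≤ Con.ker f := by
      refine Con.conGen_le.2 ?_
      rintro u v ⟨rfl, rfl⟩
      rw [Con.ker_rel, ofList_w]
      simpa [f] using h
    refine ⟨Con.lift cg f hf, ?_, ?_⟩
    · change Con.lift cg f hf (cg.mk' (FreeMonoid.of 0)) = x
      rw [Con.lift_mk']
      simp [f]
    · change Con.lift cg f hf (cg.mk' (FreeMonoid.of 1)) = y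
      rw [Con.lift_mk']
      simp [f]

theorem main : ¬ ComputablePred (Sat (fun a : Fin 2 => cg.mk' (FreeMonoid.of a))) :=
  pres.sat_not_computable (i := 0) (j := 1) rfl rfl

end Pool.Agent.H176R3.OneRel
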